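import Mathlib
import Pool.Agent.R982.EwensH

/-!
# MP_afae70_pr, Q1: the logarithmic threshold for invariable generation by Ewens permutations fails

`pInv α n N` is the probability that `N` independent Ewens-`α` permutations of `n` points
invariably generate the symmetric group.  We show that for every `α > 1` and every `β > 0` the
probabilities `pInv α n ⌊β log n⌋` do not tend to `0`.  In particular, for `α > 1 / log 2` there
are no constants `0 < β < β'` as asked for in Q1.
-/

open Finset Filter Pool.Agent.R982.Ewens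

namespace Pool.Agent.Results.MP_afae70_pr.LogarithmicThreshold

theorem V_le_w {α : ℝ} (hα : 0 < α) (n : ℕ) (E : Multiset ℕ → Prop) : V α n E ≤ w α n := by
  unfold V w
  refine WS_mono hα.le n ?_
  intro s _
  split_ifs <;> norm_num

theorem miss_le {α : ℝ} (hα : 0 < α) (n N : ℕ) (E : Multiset ℕ → Prop) {c : ℝ}
    (h : c * w α n ≤ V α n E) : (1 - V α n E / w α n) ^ N ≤ Real.exp (-(c * N)) := by
  have hw := w_pos hα n
  have h1 : c ≤ V α n E / w α n := by rw [le_div_iff₀ hw]; exact h
  have h2 : V α n E / w α n ≤ 1 := by rw [div_le_one hw]; exact V_le_w hα n E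
  have h3 : 1 - V α n E / w α n ≤ Real.exp (-c) := by
    have := Real.add_one_le_exp (-c)
    linarith
  calc (1 - V α n E / w α n) ^ N ≤ (Real.exp (-c)) ^ N :=
        pow_le_pow_left₀ (by linarith) h3 N
    _ = Real.exp (-(c * N)) := by
        rw [← Real.exp_nat_mul]
        congr 1
        ring

theorem tendsto_aux {c β : ℝ} (hc : 0 < c) (hβ : 0 < β) :
    Tendsto (fun n : ℕ => (2 * Real.log n + 1) * Real.exp (-(c * (β * Real.log n - 1))))
      atTop (nhds 0) := by
  have hb : 0 < c * β := mul_pos hc hβ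
  have h1 : Tendsto (fun x : ℝ => x ^ 1 * Real.exp (-x)) atTop (nhds 0) :=
    Real.tendsto_pow_mul_exp_neg_atTop_nhds_zero 1
  have h2 : Tendsto (fun x : ℝ => x ^ 0 * Real.exp (-x)) atTop (nhds 0) :=
    Real.tendsto_pow_mul_exp_neg_atTop_nhds_zero 0
  have h3 : Tendsto (fun x : ℝ => Real.exp c * ((2 / (c * β)) * (x ^ 1 * Real.exp (-x)) +
      x ^ 0 * Real.exp (-x))) atTop (nhds (Real.exp c * ((2 / (c * β)) * 0 + 0))) :=
    ((h1.const_mul _).add h2).const_mul _
  have h4 : Tendsto (fun n : ℕ => (c * β) * Real.log n) atTop atTop :=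
    (Real.tendsto_log_atTop.comp tendsto_natCast_atTop_atTop).const_mul_atTop hb
  have h5 := h3.comp h4
  rw [mul_zero, zero_add, mul_zero] at h5
  refine h5.congr ?_
  intro n
  simp only [Function.comp]
  have e1 : Real.exp (-(c * (β * Real.log n - 1))) =
      Real.exp c * Real.exp (-((c * β) * Real.log n)) := by
    rw [← Real.exp_add]; congr 1; ring
  rw [e1]
  field_simp

theorem not_tendsto {α : ℝ} (hα : 1 < α) {β : ℝ} (hβ : 0 < β) :
    ¬ Tendsto (fun n : ℕ => pInv α n ⌊β * Real.log n⌋₊) atTop (nhds 0) := by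
  intro hT
  have hα0 : 0 < α := by linarith
  obtain ⟨L, hL4, c1, hc1, hEK⟩ := EK_bound hα
  obtain ⟨c2, hc2, hEB⟩ := EB_bound hα.le L (by omega)
  obtain ⟨c3, hc3, hEX⟩ := EX_bound hα.le
  have hc4 : 0 < 1 / (α + 1) := by positivity
  set δ : ℝ := c3 / 96 with hδ
  have hδ0 : 0 < δ := by positivity
  set η : ℝ := 1 - Real.exp (-(δ * β / 2)) with hη
  have hη0 : 0 < η := by
    have : Real.exp (-(δ * β / 2)) < 1 := by
      rw [Real.exp_lt_one_iff]
      have : 0 < δ * β / 2 := by positivity
      linarith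
    linarith
  have hη8 : 0 < η / 8 := by linarith
  have hlog : Tendsto (fun n : ℕ => Real.log n) atTop atTop :=
    Real.tendsto_log_atTop.comp tendsto_natCast_atTop_atTop
  have hev := ((hT.eventually (gt_mem_nhds hη8)).and
    (((tendsto_aux hc1 hβ).eventually (gt_mem_nhds hη8)).and
    (((tendsto_aux hc2 hβ).eventually (gt_mem_nhds hη8)).and
    (((tendsto_aux hc4 hβ).eventually (gt_mem_nhds hη8)).and
    ((eventually_ge_atTop 100).and (hlog.eventually_ge_atTop (2 / β)))))))
  obtain ⟨N0, hN0⟩ := eventually_atTop.mp hev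
  obtain ⟨n, hn, hodd, PR, hPR, hcard⟩ := exists_primes N0
  obtain ⟨t0, t1, t2, t4, hn100, hlogn⟩ := hN0 n hn
  have hn0 : (0 : ℝ) < n := by
    have : 0 < n := by omega
    exact_mod_cast this
  have hlog0 : 0 < Real.log n := lt_of_lt_of_le (by positivity) hlogn
  set N : ℕ := ⌊β * Real.log n⌋₊ with hN
  have hN1 : β * Real.log n - 1 ≤ N := by
    have := Nat.lt_floor_add_one (β * Real.log n)
    rw [← hN] at this
    linarith
  have hN2 : β / 2 * Real.log n ≤ N := by
    have h1 : 2 ≤ β * Real.log n := by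
      rw [div_le_iff₀ hβ] at hlogn
      linarith
    linarith
  have hw := w_pos hα0 n
  have hlog2 : (1 : ℝ) ≤ 2 * Real.log n + 1 := by linarith
  -- generic estimate
  have gen : ∀ {c : ℝ} (E : Multiset ℕ → Prop), 0 < c → c * w α n ≤ V α n E →
      (1 - V α n E / w α n) ^ N ≤ Real.exp (-(c * (β * Real.log n - 1))) := by
    intro c E hc hE
    refine (miss_le hα0 n N E hE).trans ?_
    refine Real.exp_le_exp.mpr ?_
    have := mul_le_mul_of_nonneg_left hN1 hc.le
    linarith
  -- the four terms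
  set J : Finset ℕ := (range (Nat.log 2 n + 1)).filter (fun j => L * 2 ^ j ≤ n) with hJdef
  have hJ : ∀ j, L * 2 ^ j ≤ n → j ∈ J := by
    intro j hj
    rw [hJdef, Finset.mem_filter, Finset.mem_range]
    refine ⟨?_, hj⟩
    have h1 : 2 ^ j ≤ n := by
      have : 1 * 2 ^ j ≤ L * 2 ^ j := Nat.mul_le_mul_right _ (by omega)
      omega
    have := Nat.le_log_of_pow_le (b := 2) (by norm_num) h1
    omega
  have hJcard : (J.card : ℝ) ≤ 2 * Real.log n + 1 := by
    have h1 : J.card ≤ Nat.log 2 n + 1 := by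
      have := Finset.card_filter_le (range (Nat.log 2 n + 1)) (fun j => L * 2 ^ j ≤ n)
      rw [Finset.card_range] at this
      exact this
    have h2 : (Nat.log 2 n : ℝ) * Real.log 2 ≤ Real.log n := by
      have h3 : (2 : ℕ) ^ Nat.log 2 n ≤ n := Nat.pow_log_le_self 2 (by omega)
      have h4 : ((2 : ℝ)) ^ Nat.log 2 n ≤ n := by exact_mod_cast h3
      have h5 := Real.log_le_log (by positivity) h4
      rw [Real.log_pow] at h5
      exact h5
    have h3 := Real.log_two_gt_d9
    have h4 : (J.card : ℝ) ≤ (Nat.log 2 n : ℝ) + 1 := by exact_mod_cast h1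
    have h5 : (0 : ℝ) ≤ (Nat.log 2 n : ℝ) := by positivity
    nlinarith
  have T1 : ∑ j ∈ J, (1 - V α n (EK (2 ^ j)) / w α n) ^ N ≤ η / 8 := by
    have h1 : ∑ j ∈ J, (1 - V α n (EK (2 ^ j)) / w α n) ^ N ≤
        ∑ _j ∈ J, Real.exp (-(c1 * (β * Real.log n - 1))) := by
      refine Finset.sum_le_sum ?_
      intro j hj
      rw [hJdef, Finset.mem_filter] at hj
      exact gen _ hc1 (hEK (2 ^ j) n (Nat.one_le_two_pow) hj.2)
    rw [Finset.sum_const, nsmul_eq_mul] at h1
    refine h1.trans ((mul_le_mul_of_nonneg_right hJcard (Real.exp_pos _).le).trans t1.le)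
  have T2 : (1 - V α n (EB L n) / w α n) ^ N ≤ η / 8 := by
    have h1 := gen (EB L n) hc2 (hEB n (by omega))
    refine h1.trans (le_trans ?_ t2.le)
    have := Real.exp_pos (-(c2 * (β * Real.log n - 1)))
    nlinarith
  have T4 : (1 - V α n (EO n) / w α n) ^ N ≤ η / 8 := by
    have h1 := gen (EO n) hc4 (EO_bound hα n (by omega))
    refine h1.trans (le_trans ?_ t4.le)
    have := Real.exp_pos (-(1 / (α + 1) * (β * Real.log n - 1)))
    nlinarith
  have T3 : (1 - V α n (EX n) / w α n) ^ N ≤ Real.exp (-(δ * β / 2)) := by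
    have h1 := hEX n hn100 PR hPR
    have h2 : δ / Real.log n * w α n ≤ V α n (EX n) := by
      refine le_trans ?_ h1
      refine mul_le_mul_of_nonneg_right ?_ hw.le
      have h3 : 1 / 96 / Real.log n ≤ (PR.card : ℝ) / n := by
        rw [le_div_iff₀ hn0]
        refine le_trans (le_of_eq ?_) hcard
        ring
      have h4 := mul_le_mul_of_nonneg_left h3 hc3.le
      refine le_trans (le_of_eq ?_) h4
      rw [hδ]; ring
    refine (miss_le hα0 n N (EX n) h2).trans ?_
    refine Real.exp_le_exp.mpr ?_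
    have h5 := mul_le_mul_of_nonneg_left hN2 (by positivity : 0 ≤ δ / Real.log n)
    have h6 : δ / Real.log n * (β / 2 * Real.log n) = δ * β / 2 := by
      field_simp
    rw [h6] at h5
    linarith
  have hmain := pInv_ge hα0 (N := N) hodd (show 2 ≤ L by omega) J hJ
  have hexp : Real.exp (-(δ * β / 2)) = 1 - η := by rw [hη]; ring
  rw [hexp] at T3
  linarith

theorem result :
    -- for every `α > 1` and every `β > 0` the probability that `⌊β log n⌋` permutations
    -- invariably generate the symmetric group does not tend to `0`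
    (∀ α : ℝ, 1 < α → ∀ β : ℝ, 0 < β →
      ¬ Tendsto (fun n : ℕ => pInv α n ⌊β * Real.log n⌋₊) atTop (nhds 0)) ∧
    -- hence the answer to Q1 is negative, for every `α > 1 / log 2`
    (∀ α : ℝ, 1 / Real.log 2 < α → ¬ ∃ β β' : ℝ, 0 < β ∧ β < β' ∧
      Tendsto (fun n : ℕ => pInv α n ⌊β * Real.log n⌋₊) atTop (nhds 0) ∧
      0 < liminf (fun n : ℕ => pInv α n ⌈β' * Real.log n⌉₊) atTop) := by
  refine ⟨fun α hα β hβ => not_tendsto hα hβ, ?_⟩
  rintro α hα ⟨β, β', hβ, _, hT, _⟩
  refine not_tendsto ?_ hβ hT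
  have h1 : Real.log 2 < 1 := by
    have := Real.log_two_lt_d9
    linarith
  have h2 : 0 < Real.log 2 := Real.log_pos (by norm_num)
  have h3 : 1 < 1 / Real.log 2 := by rw [lt_div_iff₀ h2]; linarith
  linarith

end Pool.Agent.Results.MP_afae70_pr.LogarithmicThreshold
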